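import Pool.Agent.WR2.StmtsC

/-! # WR2, row STP: the step at `a`. -/

set_option autoImplicit false

namespace Pool.Agent.WR2.H5

open Pool.Agent.WIR Pool.Agent.WR2
open scoped BigOperators

theorem od_succ (s b : ℕ) : od (s + 1) b = od s b + (if T^[s] b % 2 = 1 then 1 else 0) := by
  unfold od
  rw [Finset.range_add_one, Finset.filter_insert]
  split_ifs with h
  · rw [Finset.card_insert_of_notMem]
    simp
  · simp

theorem T_eq (c a : ℕ) : T c = a ↔ (c % 2 = 0 ∧ c = 2 * a) ∨ (c % 2 = 1 ∧ 3 * c + 1 = 2 * a) := by
  unfold T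
  split_ifs with h
  · omega
  · omega

theorem stp (hPRE : PreStmt) : StpStmt := by
  obtain ⟨hmem, -, -, -⟩ := hPRE
  intro f a ha
  refine ⟨?_, ?_, ?_⟩
  · intro l
    unfold PS
    have h0 : ∀ b, od 0 b = 0 := fun b => by simp [od]
    split_ifs with hl
    · have h1 : Pre 0 l a = {a} := by
        ext b
        rw [hmem, Finset.mem_singleton, h0, Function.iterate_zero, id]
        constructor
        · exact fun h => h.2.1
        · rintro rfl
          exact ⟨ha, rfl, hl.symm⟩
      rw [h1, Finset.sum_singleton]
    · have h1 : Pre 0 l a = ∅ := by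
        ext b
        rw [hmem, h0]
        constructor
        · exact fun h => absurd h.2.2.symm hl
        · intro h
          exact absurd h (Finset.notMem_empty b)
      rw [h1, Finset.sum_empty]
  · intro s
    unfold PS
    have h1 : Pre (s + 1) 0 a = Pre s 0 (2 * a) := by
      ext b
      rw [hmem, hmem, Function.iterate_succ_apply', od_succ, T_eq]
      constructor
      · rintro ⟨h1, h2, h3⟩
        refine ⟨h1, ?_, by omega⟩
        rcases h2 with h2 | h2
        · exact h2.2
        · rw [if_pos h2.1] at h3
          omega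
      · rintro ⟨h1, h2, h3⟩
        have h4 : T^[s] b % 2 = 0 := by omega
        refine ⟨h1, Or.inl ⟨h4, h2⟩, ?_⟩
        rw [if_neg (by omega), h3]
    rw [h1]
  · intro s l
    unfold PS
    by_cases h3 : 3 ∣ 2 * a - 1
    · rw [if_pos h3]
      have hd : Disjoint (Pre s (l + 1) (2 * a)) (Pre s l ((2 * a - 1) / 3)) := by
        rw [Finset.disjoint_left]
        intro b hb hb'
        rw [hmem] at hb hb'
        omega
      rw [← Finset.sum_union hd]
      refine Finset.sum_congr ?_ fun _ _ => rfl
      ext b
      rw [Finset.mem_union, hmem, hmem, hmem, Function.iterate_succ_apply', od_succ, T_eq]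
      obtain ⟨k, hk⟩ := h3
      have hdiv : (2 * a - 1) / 3 = k := by omega
      rw [hdiv]
      constructor
      · rintro ⟨h1, h2, h4⟩
        rcases h2 with h2 | h2
        · left
          rw [if_neg (by omega)] at h4
          exact ⟨h1, h2.2, h4⟩
        · right
          rw [if_pos h2.1] at h4
          exact ⟨h1, by omega, by omega⟩
      · rintro (⟨h1, h2, h4⟩ | ⟨h1, h2, h4⟩)
        · have h5 : T^[s] b % 2 = 0 := by omega
          refine ⟨h1, Or.inl ⟨h5, h2⟩, ?_⟩
          rw [if_neg (by omega)]
          exact h4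
        · have h5 : T^[s] b % 2 = 1 := by omega
          refine ⟨h1, Or.inr ⟨h5, by omega⟩, ?_⟩
          rw [if_pos h5, h4]
    · rw [if_neg h3, add_zero]
      refine Finset.sum_congr ?_ fun _ _ => rfl
      ext b
      rw [hmem, hmem, Function.iterate_succ_apply', od_succ, T_eq]
      constructor
      · rintro ⟨h1, h2, h4⟩
        rcases h2 with h2 | h2
        · rw [if_neg (by omega)] at h4
          exact ⟨h1, h2.2, h4⟩
        · exfalso
          apply h3
          exact ⟨T^[s] b, by omega⟩
      · rintro ⟨h1, h2, h4⟩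
        have h5 : T^[s] b % 2 = 0 := by omega
        refine ⟨h1, Or.inl ⟨h5, h2⟩, ?_⟩
        rw [if_neg (by omega)]
        exact h4

end Pool.Agent.WR2.H5
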